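import Pool.Agent.Lib.MP_a8bb0e_al.Forms

/-! Sharper rank bounds obtained by differentiating an invariant subspace. -/

namespace Pool.Agent.Lib.MP_a8bb0e_al.Sharp

open Module LinearMap Matrix Polynomial

variable {L : Type} [Field L]

lemma ker_syl_rel [IsAlgClosed L] {W Y : Type} [AddCommGroup W] [Module L W] [AddCommGroup Y]
    [Module L Y] [FiniteDimensional L W] [FiniteDimensional L Y] (e : Y →ₗ[L] Y) (f : W →ₗ[L] W)
    (ρ : ℕ) (hρ : ∀ ν : L, finrank L (ker (e - ν • LinearMap.id)) ≤ ρ) (d : ℕ) :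
    ∀ U : Submodule L W, U ≤ U.comap f → finrank L U + d = finrank L W →
      finrank L (ker (syl e f) ⊓ ker (lcomp L Y U.subtype) : Submodule L (W →ₗ[L] Y)) ≤ d * ρ := by
  induction d with
  | zero =>
    intro U _ hU
    have hU' : U = ⊤ := Submodule.eq_top_of_finrank_eq (by omega)
    have : (ker (syl e f) ⊓ ker (lcomp L Y U.subtype) : Submodule L (W →ₗ[L] Y)) = ⊥ := by
      refine eq_bot_iff.2 fun φ hφ => ?_
      ext w
      exact LinearMap.congr_fun hφ.2 ⟨w, hU' ▸ Submodule.mem_top⟩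
    rw [this, finrank_bot]
    exact Nat.zero_le _
  | succ d ih =>
    intro U hUf hU
    have : Nontrivial (W ⧸ U) := by
      have := U.finrank_quotient_add_finrank
      exact nontrivial_of_finrank_eq_succ (R := L) (n := d) (by omega)
    obtain ⟨ν, hν⟩ := Module.End.exists_eigenvalue (U.mapQ U f hUf)
    obtain ⟨y, hy⟩ := hν.exists_hasEigenvector
    obtain ⟨w, rfl⟩ := U.mkQ_surjective y
    have w0 : w ∉ U := fun h => hy.2 ((Submodule.Quotient.mk_eq_zero U).2 h)
    have w1 : f w - ν • w ∈ U := by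
      rw [← Submodule.Quotient.mk_eq_zero, ← U.mkQ_apply, map_sub, map_smul, sub_eq_zero]
      exact hy.apply_eq_smul
    have h1 := ih (U ⊔ Submodule.span L {w}) (by
      refine sup_le (hUf.trans (Submodule.comap_mono le_sup_left)) ?_
      rw [Submodule.span_le]
      rintro _ rfl
      change f _ ∈ U ⊔ Submodule.span L {_}
      rw [← sub_add_cancel (f _) (ν • _)]
      exact Submodule.add_mem_sup w1
        (Submodule.smul_mem _ _ (Submodule.mem_span_singleton_self _))) (by
      rw [Submodule.finrank_sup_span_singleton w0]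
      omega)
    rw [finrank_le_map_add _ (LinearMap.applyₗ w), Nat.succ_mul, add_comm]
    refine add_le_add (le_trans (Submodule.finrank_mono ?_) h1)
      (le_trans (Submodule.finrank_mono ?_) (hρ ν))
    · rintro φ ⟨⟨a1, a2⟩, a3⟩
      refine ⟨a1, LinearMap.ext fun x => ?_⟩
      obtain ⟨a, ha, b, hb, e1⟩ := Submodule.mem_sup.1 x.2
      obtain ⟨c, rfl⟩ := Submodule.mem_span_singleton.1 hb
      have b1 : φ a = 0 := LinearMap.congr_fun a2 ⟨a, ha⟩
      have b2 : φ w = 0 := a3
      change φ x = 0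
      rw [← e1, map_add, map_smul, b1, b2, smul_zero, add_zero]
    · rintro _ ⟨φ, ⟨a1, a2⟩, rfl⟩
      have b1 : φ (f w - ν • w) = 0 := LinearMap.congr_fun a2 ⟨_, w1⟩
      have b2 : e (φ w) - φ (f w) = 0 := LinearMap.congr_fun a1 w
      change e (φ w) - ν • φ w = 0
      rw [map_sub, map_smul] at b1
      rw [sub_eq_zero.1 b2, b1]

lemma ker_syl_le [IsAlgClosed L] {W Y : Type} [AddCommGroup W] [Module L W] [AddCommGroup Y]
    [Module L Y] [FiniteDimensional L W] [FiniteDimensional L Y] (e : Y →ₗ[L] Y) (f : W →ₗ[L] W)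
    (ρ : ℕ) (hρ : ∀ ν : L, finrank L (ker (e - ν • LinearMap.id)) ≤ ρ) :
    finrank L (ker (syl e f)) ≤ finrank L W * ρ := by
  refine le_trans (Submodule.finrank_mono ?_)
    (ker_syl_rel e f ρ hρ (finrank L W) ⊥ bot_le (by simp))
  exact fun φ hφ => ⟨hφ, LinearMap.ext fun x => by
    have : x = 0 := Subsingleton.elim _ _
    rw [this, map_zero, map_zero]⟩

lemma ker_syl_cyc [IsAlgClosed L] {W Y : Type} [AddCommGroup W] [Module L W] [AddCommGroup Y]
    [Module L Y] [FiniteDimensional L W] [FiniteDimensional L Y] (e : Y →ₗ[L] Y) (f : W →ₗ[L] W)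
    (ρ : ℕ) (hρ : ∀ ν : L, finrank L (ker (e - ν • LinearMap.id)) ≤ ρ)
    (hf : ∀ ν : L, f ≠ ν • LinearMap.id) :
    2 ≤ finrank L W ∧ finrank L (ker (syl e f)) ≤ finrank L Y + (finrank L W - 2) * ρ := by
  obtain ⟨u, hu⟩ : ∃ u, LinearIndependent L ![u, f u] := by
    by_contra hc
    push Not at hc
    obtain ⟨ν, hν⟩ := f.exists_eq_smul_id_of_forall_notLinearIndependent hc
    exact hf ν hν
  obtain ⟨U, hU⟩ : ∃ U, U = Submodule.span L (Set.range fun i : ℕ => (f ^ i) u) := ⟨_, rfl⟩
  have h2 : 2 ≤ finrank L U := by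
    have a1 := finrank_span_eq_card hu
    rw [Fintype.card_fin] at a1
    rw [hU]
    refine le_of_eq_of_le a1.symm (Submodule.finrank_mono (Submodule.span_mono ?_))
    rintro _ ⟨i, rfl⟩
    fin_cases i
    · exact ⟨0, by simp⟩
    · exact ⟨1, by simp⟩
  have h3 := U.finrank_le
  have h1 := ker_syl_rel e f ρ hρ (finrank L W - finrank L U) U (by
    rw [hU, Submodule.span_le]
    rintro _ ⟨i, rfl⟩
    exact Submodule.subset_span ⟨i + 1, by simp [pow_succ']⟩) (by omega)
  refine ⟨by omega, ?_⟩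
  rw [finrank_le_map_add _ (LinearMap.applyₗ u)]
  refine add_le_add (Submodule.finrank_le _) (le_trans (Submodule.finrank_mono ?_)
    (h1.trans (Nat.mul_le_mul_right _ (by omega))))
  rintro φ ⟨a1, a2⟩
  refine ⟨a1, LinearMap.ext fun x => ?_⟩
  have b1 : ∀ i : ℕ, φ ((f ^ i) u) = 0 := fun i => by
    induction i with
    | zero => exact a2
    | succ i ih =>
      have b2 : e (φ ((f ^ i) u)) - φ (f ((f ^ i) u)) = 0 := LinearMap.congr_fun a1 _
      rw [ih, map_zero, zero_sub, neg_eq_zero] at b2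
      rwa [pow_succ', Module.End.mul_apply]
  have b3 : U ≤ ker φ := by
    rw [hU, Submodule.span_le]
    rintro _ ⟨i, rfl⟩
    exact b1 i
  exact b3 x.2

lemma aeval_intertwine {P I : Type} [Fintype P] [Fintype I] [DecidableEq P] [DecidableEq I]
    {A : Matrix P P L} {T : Matrix P I L} {h : Matrix I I L} (hAT : A * T = T * h) (p : L[X]) :
    aeval A p * T = T * aeval h p := by
  have hp : ∀ i : ℕ, A ^ i * T = T * h ^ i := fun i => by
    induction i with
    | zero => simp
    | succ i ih => rw [pow_succ', Matrix.mul_assoc, ih, ← Matrix.mul_assoc, hAT, pow_succ',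
        Matrix.mul_assoc]
  induction p using Polynomial.induction_on' with
  | add p q hp hq => rw [map_add, map_add, Matrix.add_mul, Matrix.mul_add, hp, hq]
  | monomial i a =>
    rw [aeval_monomial, aeval_monomial, ← Algebra.smul_def, ← Algebra.smul_def, Matrix.smul_mul,
      Matrix.mul_smul, hp]

lemma aeval_eigen {P : Type} [Fintype P] [DecidableEq P] {A : Matrix P P L} {v : P → L} {ν : L}
    (hv : A *ᵥ v = ν • v) (p : L[X]) : aeval A p *ᵥ v = p.eval ν • v := by
  have hp : ∀ i : ℕ, A ^ i *ᵥ v = ν ^ i • v := fun i => by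
    induction i with
    | zero => simp
    | succ i ih => rw [pow_succ', ← mulVec_mulVec, ih, mulVec_smul, hv, smul_smul, pow_succ]
  induction p using Polynomial.induction_on' with
  | add p q hp hq => rw [map_add, add_mulVec, hp, hq, eval_add, add_smul]
  | monomial i a =>
    rw [aeval_monomial, ← Algebra.smul_def, smul_mulVec, hp, eval_monomial, smul_smul]

/-- The four bounds. -/
def Bounds (N m k G : ℕ) : Prop :=
  ∃ σ, (N - m) * σ ≤ G ∧ (m - σ) * (k - σ) ≤ G ∧ m * (k - m) ≤ G ∧
    (1 ≤ σ → (N - m) + (m - 2) * (k - m) ≤ G)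

theorem core3 [IsAlgClosed L] {P I : Type} [Fintype P] [Fintype I] [DecidableEq P] [DecidableEq I]
    (A : Matrix P P L) (T : Matrix P I L) (h : Matrix I I L) (hAT : A * T = T * h)
    (hT : Function.Injective (toLin' T))
    (gen : ∀ δ : Matrix P I L, ∃ (D : Derivation ℤ L L) (X : Matrix I I L), T.map D = δ + T * X)
    (Γ : Submodule L (Matrix P P L))
    (hΓ : ∀ D : Derivation ℤ L L, ∃ p : L[X], A.map D - aeval A p ∈ Γ ∧
      ∀ ν : L, (A - ν • 1).det = 0 → p.eval ν = D ν)
    (k : ℕ) (hk : ∀ ν : L, k ≤ finrank L (range (toLin' (A - ν • 1)))) :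
    Bounds (Fintype.card P) (Fintype.card I) k (finrank L Γ) := by
  obtain ⟨ν, hν⟩ : ∃ ν : L, ∀ μ : L, finrank L (range (toLin' (h - ν • 1))) ≤
      finrank L (range (toLin' (h - μ • 1))) :=
    exists_argmin fun μ : L => finrank L (range (toLin' (h - μ • 1)))
  obtain ⟨σ, hσ⟩ : ∃ σ, σ = finrank L (range (toLin' (h - ν • 1))) := ⟨_, rfl⟩
  have hσ1 := finrank_range_add_finrank_ker (toLin' (h - ν • 1))
  rw [← hσ, finrank_fintype_fun_eq_card] at hσ1
  have main : (Fintype.card P - Fintype.card I) * σ ≤ finrank L Γ ∧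
      Fintype.card I * (k - Fintype.card I) ≤ finrank L Γ ∧
      (1 ≤ σ → (Fintype.card P - Fintype.card I) +
        (Fintype.card I - 2) * (k - Fintype.card I) ≤ finrank L Γ) := by
    obtain ⟨U, hU⟩ : ∃ U, U = range (toLin' T) := ⟨_, rfl⟩
    have hUm : ∀ (Y : Matrix I I L) w, U.mkQ (toLin' (T * Y) w) = 0 := fun Y w =>
      (Submodule.Quotient.mk_eq_zero U).2 (by rw [hU, toLin'_mul]; exact ⟨_, rfl⟩)
    have hUA : U ≤ U.comap (toLin' A) := by
      rw [hU]
      rintro _ ⟨w, rfl⟩
      exact ⟨toLin' h w, by rw [← toLin'_mul_apply, ← toLin'_mul_apply, hAT]⟩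
    have d0 : finrank L U = Fintype.card I := by
      rw [hU, finrank_range_of_inj hT, finrank_fintype_fun_eq_card]
    have d1 : finrank L ((P → L) ⧸ U) = Fintype.card P - Fintype.card I := by
      have := U.finrank_quotient_add_finrank
      rw [d0, finrank_fintype_fun_eq_card] at this
      omega
    have d2 := finrank_ker_syl (toLin' h) (Fintype.card I - σ) (fun μ => by
      have := hν μ
      rw [map_sub (toLin' (R := L)) h (μ • 1), map_smul, toLin'_one] at this
      rw [finrank_fintype_fun_eq_card]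
      omega) _ _ (U.mapQ U (toLin' A) hUA) d1
    have d3 := finrank_range_add_finrank_ker (syl (U.mapQ U (toLin' A) hUA) (toLin' h))
    rw [finrank_linearMap, d1, finrank_fintype_fun_eq_card] at d3
    have d4 : range (syl (U.mapQ U (toLin' A) hUA) (toLin' h)) ≤ Γ.map
        ((llcomp L _ _ _ U.mkQ).comp (toLin'.toLinearMap.comp (mulRightLinearMap P L T))) := by
      rintro _ ⟨φ, rfl⟩
      obtain ⟨ψ, hψ⟩ := projective_lifting_property U.mkQ φ U.mkQ_surjective
      obtain ⟨D, X, hD⟩ := gen (LinearMap.toMatrix' ψ)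
      obtain ⟨p, hp, -⟩ := hΓ D
      refine ⟨-(A.map D - aeval A p), neg_mem hp, LinearMap.ext fun w => ?_⟩
      have e1 : (A * T).map D = (T * h).map D := by rw [hAT]
      rw [dmul, dmul, hD, Matrix.mul_add, Matrix.add_mul, ← Matrix.mul_assoc A, hAT] at e1
      have e2 := congrArg (fun M => U.mkQ (toLin' M w)) e1
      simp only [map_add, LinearMap.add_apply, Matrix.mul_assoc, hUm, add_zero] at e2
      rw [toLin'_mul_apply A, toLin'_mul_apply (LinearMap.toMatrix' ψ), toLin'_toMatrix'] at e2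
      rw [syl_apply, ← hψ]
      change U.mkQ (toLin' (-(A.map D - aeval A p) * T) w) =
        U.mkQ (toLin' A (ψ w)) - U.mkQ (ψ (toLin' h w))
      rw [← e2, Matrix.neg_mul, Matrix.sub_mul, aeval_intertwine hAT, map_neg, map_sub,
        LinearMap.neg_apply, LinearMap.sub_apply, map_neg, map_sub, hUm]
      abel
    have d5 := (Submodule.finrank_mono d4).trans (Submodule.finrank_map_le _ _)
    have d6 : Fintype.card I * (Fintype.card P - Fintype.card I) =
        (Fintype.card P - Fintype.card I) * (Fintype.card I - σ) +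
          (Fintype.card P - Fintype.card I) * σ := by
      rw [← Nat.mul_add, Nat.sub_add_cancel (by omega), mul_comm]
    have kP : k ≤ Fintype.card P := by
      have := (hk 0).trans (Submodule.finrank_le _)
      rwa [finrank_fintype_fun_eq_card] at this
    obtain ⟨j, hj⟩ : ∃ j, j = k - Fintype.card I := ⟨_, rfl⟩
    obtain ⟨ρ, hρ⟩ : ∃ ρ, Fintype.card P - Fintype.card I = ρ + j :=
      ⟨Fintype.card P - Fintype.card I - j, by omega⟩
    have d7 : ∀ μ : L, finrank L (ker (U.mapQ U (toLin' A) hUA - μ • LinearMap.id)) ≤ ρ := by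
      intro μ
      have a1 := finrank_range_add_finrank_ker (U.mapQ U (toLin' A) hUA - μ • LinearMap.id)
      have a2 := finrank_le_map_add (range (toLin' (A - μ • 1))) U.mkQ
      have a3 : finrank L (range (toLin' (A - μ • 1)) ⊓ ker U.mkQ : Submodule L _) ≤ finrank L U :=
        Submodule.finrank_mono (by rw [Submodule.ker_mkQ]; exact inf_le_right)
      have a4 : finrank L ((range (toLin' (A - μ • 1))).map U.mkQ) ≤
          finrank L (range (U.mapQ U (toLin' A) hUA - μ • LinearMap.id)) := by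
        refine Submodule.finrank_mono ?_
        rintro _ ⟨_, ⟨x, rfl⟩, rfl⟩
        refine ⟨U.mkQ x, ?_⟩
        rw [map_sub (toLin' (R := L)) A (μ • 1), map_smul, toLin'_one, LinearMap.sub_apply,
          LinearMap.sub_apply, map_sub]
        rfl
      have a5 := hk μ
      omega
    have d8 := ker_syl_le _ (toLin' h) ρ d7
    rw [finrank_fintype_fun_eq_card] at d8
    rw [← hj]
    refine ⟨by omega, ?_, fun h1 => ?_⟩
    · rw [hρ, Nat.mul_add] at d3
      omega
    · obtain ⟨d9, d10⟩ := ker_syl_cyc _ (toLin' h) ρ d7 fun μ hμ => by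
        have := hν μ
        rw [← hσ, map_sub (toLin' (R := L)) h (μ • 1), map_smul, toLin'_one, hμ, sub_self,
          LinearMap.range_zero, finrank_bot] at this
        omega
      rw [finrank_fintype_fun_eq_card] at d9 d10
      obtain ⟨m, hm⟩ : ∃ m, Fintype.card I = m + 2 := ⟨Fintype.card I - 2, by omega⟩
      rw [d1, hρ] at d10
      rw [hρ] at d3 ⊢
      rw [hm] at d3 d10 ⊢
      rw [Nat.add_sub_cancel] at d10 ⊢
      have : (m + 2) * (ρ + j) = m * ρ + m * j + 2 * ρ + 2 * j := by ring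
      omega
  refine ⟨σ, main.1, ?_, main.2⟩
  obtain ⟨B, hB⟩ : ∃ B, B = A - ν • (1 : Matrix P P L) := ⟨_, rfl⟩
  obtain ⟨C, hC⟩ : ∃ C, C = ker (toLin' (h - ν • 1)) := ⟨_, rfl⟩
  have hBT : B * T = T * (h - ν • 1) := by
    simp only [hB, Matrix.sub_mul, Matrix.mul_sub, hAT, Matrix.smul_mul, Matrix.mul_smul,
      Matrix.one_mul, Matrix.mul_one]
  obtain ⟨U, hU⟩ : ∃ U, U = range (toLin' (B * T)) := ⟨_, rfl⟩
  have hUm : ∀ w, U.mkQ (toLin' (B * T) w) = 0 := fun w =>
    (Submodule.Quotient.mk_eq_zero U).2 (by rw [hU]; exact ⟨_, rfl⟩)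
  have d1 : finrank L U ≤ σ := by
    rw [hU, hBT, toLin'_mul, range_comp, hσ]
    exact Submodule.finrank_map_le _ _
  have d2 : k - σ ≤ finrank L (range (U.mkQ.comp (toLin' B))) := by
    have a1 := finrank_le_map_add (range (toLin' B)) U.mkQ
    have a2 : finrank L (range (toLin' B) ⊓ ker U.mkQ : Submodule L _) ≤ finrank L U :=
      Submodule.finrank_mono (by rw [Submodule.ker_mkQ]; exact inf_le_right)
    have a3 := hk ν
    rw [← hB] at a3
    rw [range_comp]
    omega
  have d4 : range (llcomp (σ₁₂ := RingHom.id L) L C _ _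
      (range (U.mkQ.comp (toLin' B))).subtype) ≤ Γ.map
      ((lcomp L _ C.subtype).comp ((llcomp L _ _ _ U.mkQ).comp
        (toLin'.toLinearMap.comp (mulRightLinearMap P L T)))) := by
    rintro _ ⟨φ, rfl⟩
    obtain ⟨ψ, hψ⟩ := projective_lifting_property _ φ
      (surjective_rangeRestrict (U.mkQ.comp (toLin' B)))
    obtain ⟨l, hl⟩ := C.subtype.exists_leftInverse_of_injective C.ker_subtype
    obtain ⟨D, X, hD⟩ := gen (LinearMap.toMatrix' (ψ.comp l))
    obtain ⟨p, hp, hp'⟩ := hΓ D
    have b1 : B.map D = A.map D - D ν • 1 := by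
      ext i j
      simp only [hB, map_apply, Matrix.sub_apply, Matrix.smul_apply, one_apply, map_sub]
      split_ifs <;> simp
    refine ⟨-(A.map D - aeval A p), neg_mem hp, LinearMap.ext fun w => ?_⟩
    have e0 : (B * T) *ᵥ (w : I → L) = 0 := by
      have : (h - ν • 1) *ᵥ (w : I → L) = 0 := by
        have := w.2
        simp only [hC] at this
        exact this
      rw [hBT, ← mulVec_mulVec, this, mulVec_zero]
    have e4 : ((A.map D - aeval A p) * T) *ᵥ (w : I → L) = (B.map D * T) *ᵥ (w : I → L) := by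
      have a1 : (A - ν • 1) *ᵥ (T *ᵥ (w : I → L)) = 0 := by rw [mulVec_mulVec, ← hB, e0]
      have a2 : A *ᵥ (T *ᵥ (w : I → L)) = ν • (T *ᵥ (w : I → L)) := by
        rwa [sub_mulVec, smul_mulVec, one_mulVec, sub_eq_zero] at a1
      rw [b1, ← mulVec_mulVec, ← mulVec_mulVec, sub_mulVec, sub_mulVec, aeval_eigen a2,
        smul_mulVec, one_mulVec]
      by_cases h0 : T *ᵥ (w : I → L) = 0
      · rw [h0, smul_zero, smul_zero]
      · rw [hp' ν (exists_mulVec_eq_zero_iff.1 ⟨_, h0, a1⟩)]
    have e1 := dmulVec D (B * T) w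
    rw [e0, dmul, hD, Matrix.mul_add, ← Matrix.mul_assoc] at e1
    have e2 := congrArg U.mkQ e1
    have e3 : (D ∘ (0 : P → L)) = 0 := by ext; simp
    simp only [e3, LinearMap.add_apply, map_add, map_zero, ← toLin'_apply, hUm,
      toLin'_mul_apply (B * T), add_zero] at e2
    rw [toLin'_mul_apply B, toLin'_toMatrix', LinearMap.comp_apply,
      show l w = w from LinearMap.congr_fun hl w] at e2
    rw [← hψ]
    change U.mkQ (toLin' (-(A.map D - aeval A p) * T) w) = U.mkQ (toLin' B (ψ w))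
    rw [Matrix.neg_mul, map_neg, LinearMap.neg_apply, map_neg, toLin'_apply, e4, ← toLin'_apply]
    exact neg_eq_of_add_eq_zero_right e2.symm
  have d5 := (Submodule.finrank_mono d4).trans (Submodule.finrank_map_le _ _)
  rw [finrank_range_of_inj (fun φ φ' e => LinearMap.ext fun w =>
    Subtype.ext (LinearMap.congr_fun e w)), finrank_linearMap] at d5
  refine le_trans (Nat.mul_le_mul (le_of_eq ?_) d2) d5
  rw [hC]; omega

lemma aeval_transpose {P : Type} [Fintype P] [DecidableEq P] (A : Matrix P P L) (p : L[X]) :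
    aeval Aᵀ p = (aeval A p)ᵀ := by
  induction p using Polynomial.induction_on' with
  | add p q hp hq => rw [map_add, map_add, transpose_add, hp, hq]
  | monomial i a =>
    rw [aeval_monomial, aeval_monomial, ← Algebra.smul_def, ← Algebra.smul_def, transpose_smul,
      transpose_pow]

theorem core4 [IsAlgClosed L] {P I : Type} [Fintype P] [Fintype I] [DecidableEq P] [DecidableEq I]
    (A : Matrix P P L) (T : Matrix P I L) (h : Matrix I I L) (hAT : A * T = T * h)
    (hT : Function.Injective (toLin' T))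
    (gen : ∀ δ : Matrix P I L, ∃ D : Derivation ℤ L L, T.map D = δ)
    (Γ : Submodule L (Matrix P P L))
    (hΓ : ∀ D : Derivation ℤ L L, ∃ p : L[X], A.map D - aeval A p ∈ Γ ∧
      ∀ ν : L, (A - ν • 1).det = 0 → p.eval ν = D ν)
    (k : ℕ) (hk : ∀ ν : L, k ≤ (A - ν • 1).rank) :
    Bounds (Fintype.card P) (Fintype.card P - Fintype.card I) k (finrank L Γ) := by
  obtain ⟨p, S, a1, a2, a3, a4⟩ := ker_basis Tᵀ
  rw [rank_transpose, ← rk_eq, finrank_range_of_inj hT, finrank_fintype_fun_eq_card] at a1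
  obtain ⟨h', hh'⟩ := a4 _ (Aᵀ * S) (by
    rw [← Matrix.mul_assoc, ← transpose_mul, hAT, transpose_mul, Matrix.mul_assoc, a3,
      Matrix.mul_zero])
  obtain ⟨S', hS'⟩ := left_inv a2
  have tr : ∀ ν : L, Aᵀ - ν • 1 = (A - ν • 1)ᵀ := fun ν => by
    rw [transpose_sub, transpose_smul, transpose_one]
  have b := core3 Aᵀ S h' hh' a2 (fun δ => by
      obtain ⟨D, hD⟩ := gen (-(Tᵀ * δ * S')ᵀ)
      have e := dmul D Tᵀ S
      rw [a3, transpose_map, hD, transpose_neg, transpose_transpose, Matrix.neg_mul,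
        Matrix.mul_assoc, hS', Matrix.mul_one] at e
      obtain ⟨X, hX⟩ := a4 _ (S.map D - δ) (by
        rw [Matrix.mul_sub, sub_eq_neg_add, ← e]; ext; simp)
      exact ⟨D, X, by rw [← hX]; abel⟩)
    (Γ.map (transposeLinearEquiv P P L L).toLinearMap) (fun D => by
      obtain ⟨q, h1, h2⟩ := hΓ D
      refine ⟨q, ⟨_, h1, ?_⟩, fun ν hν => h2 ν (by rwa [tr, det_transpose] at hν)⟩
      rw [aeval_transpose]
      rfl)
    k fun ν => by
      rw [rk_eq, tr, rank_transpose]
      exact hk ν
  rw [LinearEquiv.finrank_map_eq, Fintype.card_fin] at b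
  rwa [show Fintype.card P - Fintype.card I = p by omega]

end Pool.Agent.Lib.MP_a8bb0e_al.Sharp
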