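import Pool.Agent.Lib.MP_a8bb0e_al.Sharp.Unip

/-! A generic space of alternating forms of dimension and codimension at least three has only
scalar pseudo-isometries. -/

namespace Pool.Agent.Lib.MP_a8bb0e_al.Sharp

open Module LinearMap Matrix Polynomial

variable {L : Type} [Field L] {n : ℕ}

lemma arith3 {N m k γ c : ℕ} (hn : 9 ≤ n) (hN : 2 * N + n = n ^ 2) (hm : 3 ≤ m) (hm' : 2 * m ≤ N)
    (h1 : γ + c ≤ n ^ 2) (h2 : 2 * N ≤ 2 * k + c) (h3 : n ≤ c)
    (h4 : c + 3 * n < n ^ 2 ∨ (n - 1) ^ 2 + 1 ≤ c) (h5 : n - 2 ≤ k) (B : Bounds N m k γ) :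
    False := by
  obtain ⟨σ, b1, b2, b3, b4⟩ := B
  have a0 : 4 * n ≤ N := by nlinarith
  have a1 : γ ≤ 2 * k + n := by omega
  have a2 : γ ≤ 2 * N := by omega
  have a3 : γ < 3 * k := by
    rcases h4 with h4 | h4
    · omega
    · obtain ⟨t, rfl⟩ : ∃ t, n = t + 1 := ⟨n - 1, by omega⟩
      rw [Nat.add_sub_cancel] at h4
      have : (t + 1) ^ 2 = t ^ 2 + 2 * t + 1 := by ring
      omega
  have a4 : σ ≤ 4 := by
    by_contra hc
    have := Nat.mul_le_mul_left (N - m) (show 5 ≤ σ by omega)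
    omega
  clear h1 h2 h3 h4 h5 hN
  rcases Nat.lt_or_ge m (σ + 4) with c1 | c1
  · have : m ≤ 7 := by omega
    interval_cases σ <;> interval_cases m <;> omega
  · have := Nat.mul_le_mul_right (k - σ) (show 4 ≤ m - σ by omega)
    interval_cases σ <;> omega

lemma exists_diag [IsAlgClosed L] (S : Matrix (Fin n) (Fin n) L)
    (hS : Module.End.IsSemisimple (toLin' S)) :
    ∃ (P P' : Matrix (Fin n) (Fin n) L) (l : Fin n → L), P * P' = 1 ∧ S = P * diagonal l * P' := by
  classical
  let s : Module.End L (Fin n → L) := toLin' S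
  let dec := DirectSum.isInternal_submodule_of_iSupIndep_of_iSup_eq_top
    s.eigenspaces_iSupIndep hS.iSup_eigenspace_eq_top
  let v : Basis ((ν : L) × Fin (finrank L (s.eigenspace ν))) L (Fin n → L) :=
    dec.collectedBasis fun μ => finBasis L (s.eigenspace μ)
  have : Fintype ((ν : L) × Fin (finrank L (s.eigenspace ν))) :=
    FiniteDimensional.fintypeBasisIndex v
  have hsv : ∀ i, s (v i) = i.1 • v i := fun i =>
    Module.End.mem_eigenspace_iff.mp (dec.collectedBasis_mem _ i)
  let e := Fintype.equivFinOfCardEq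
    ((finrank_eq_card_basis v).symm.trans (finrank_fin_fun L))
  have h1 := Basis.toMatrix_mul_toMatrix_flip (Pi.basisFun L (Fin n)) (v.reindex e)
  refine ⟨_, _, fun j => (e.symm j).1, h1, ?_⟩
  have h2 : S * (Pi.basisFun L (Fin n)).toMatrix (v.reindex e) =
      (Pi.basisFun L (Fin n)).toMatrix (v.reindex e) * diagonal fun j => (e.symm j).1 := by
    ext i j
    have := congrFun (hsv (e.symm j)) i
    rw [mul_diagonal, Basis.toMatrix_apply, Basis.reindex_apply, Pi.basisFun_repr, mul_comm]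
    refine Eq.trans ?_ this
    simp [s, Matrix.mul_apply, mulVec, dotProduct, Basis.toMatrix_apply]
  rw [← h2, Matrix.mul_assoc, h1, Matrix.mul_one]

lemma no_data [IsAlgClosed L] {I : Type} [Fintype I] [DecidableEq I] (hn : 9 ≤ n)
    (hI : 3 ≤ Fintype.card I) (hI' : Fintype.card I + 3 ≤ n.choose 2) (T : Matrix (Pr n) I L)
    (hT : Function.Injective (toLin' T))
    (gen : ∀ δ : Matrix (Pr n) I L, ∃ D : Derivation ℤ L L, T.map D = δ)
    {g : Matrix (Fin n) (Fin n) L} (hg : IsUnit g) {h : Matrix I I L}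
    (e : wedge g g * T = T * h) (hc : ∀ c : L, g ≠ c • 1) : ¬ Data g := by
  rintro ⟨Γ, c, a1, a2, a3, a4, a5⟩
  obtain ⟨g', hg'⟩ := hg.exists_right_inv
  obtain ⟨ν, hν⟩ := exists_argmin fun ν : L => (wedge g g - ν • 1).rank
  have hk := rank_wedge g g' hg' 1 (fun μ => by
    by_contra h0
    have : range (toLin' (g - μ • 1)) = ⊥ := Submodule.finrank_eq_zero.1 (by rw [rk_eq]; omega)
    exact hc μ (sub_eq_zero.1 (toLin'.map_eq_zero_iff.1 (range_eq_bot.1 this)))) 1 (by omega)
    (by omega) ν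
  rw [one_mul, mul_one] at hk
  rcases le_total (2 * Fintype.card I) (n.choose 2) with c1 | c1
  · have b := core3 _ T h e hT (fun δ => by
      obtain ⟨D, hD⟩ := gen δ
      exact ⟨D, 0, by rw [hD, Matrix.mul_zero, add_zero]⟩) Γ a1 _ hν
    rw [card_Pr] at b
    exact arith3 hn (two_choose n) hI c1 a2 (a3 ν) a4 a5 hk b
  · have b := core4 _ T h e hT gen Γ a1 _ hν
    rw [card_Pr] at b
    exact arith3 hn (two_choose n) (by omega) (by omega) a2 (a3 ν) a4 a5 hk b

lemma semisimple_part [IsAlgClosed L] {P P' N : Matrix (Fin n) (Fin n) L} (hP : P * P' = 1)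
    (l : Fin n → L) (hN : IsNilpotent N) (hc : Commute N (P * diagonal l * P')) :
    ∃ p : L[X], aeval (wedge (P * diagonal l * P' * (1 + N)) (P * diagonal l * P' * (1 + N))) p =
      wedge (P * diagonal l * P') (P * diagonal l * P') := by
  classical
  obtain ⟨S, hS⟩ : ∃ S, S = P * diagonal l * P' := ⟨_, rfl⟩
  have hW : wedge P P * wedge P' P' = 1 := by rw [← wedge_mul, mul_eq_one_comm.1 hP, wedge_one]
  have hA : wedge S S = wedge P' P' * diagonal (fun p : Pr n => l p.1.1 * l p.1.2) * wedge P P := by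
    rw [hS, wedge_mul, wedge_mul, wedge_diagonal, Matrix.mul_assoc]
  rw [← hS] at hc ⊢
  let φ : Matrix (Pr n) (Pr n) L ≃ₐ[L] Module.End L (Pr n → L) := Matrix.toLinAlgEquiv'
  have ss : (φ (wedge S S)).IsSemisimple := by
    refine Module.End.isSemisimple_of_squarefree_aeval_eq_zero
      (p := ∏ ν ∈ Finset.univ.image fun p : Pr n => l p.1.1 * l p.1.2, (X - C ν))
      (separable_prod_X_sub_C_iff'.2 fun _ _ _ _ e => e).squarefree ?_
    rw [aeval_algHom_apply φ, hA, aeval_conj hW]
    have : (fun i : Pr n => eval (l i.1.1 * l i.1.2)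
        (∏ ν ∈ Finset.univ.image fun p : Pr n => l p.1.1 * l p.1.2, (X - C ν))) = fun _ => 0 := by
      funext i
      rw [eval_prod]
      exact Finset.prod_eq_zero (Finset.mem_image_of_mem _ (Finset.mem_univ i)) (by simp)
    rw [this, diagonal_zero, Matrix.mul_zero, Matrix.zero_mul, map_zero]
  have cm : Commute (wedge (1 + N) (1 + N) - 1) (wedge S S) := by
    refine Commute.sub_left ?_ (Commute.one_left _)
    change _ * _ = _ * _
    rw [← wedge_mul, ← wedge_mul, ((Commute.one_left S).add_left hc).eq]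
  have nil : IsNilpotent (φ ((wedge (1 + N) (1 + N) - 1) * wedge S S)) := by
    rw [map_mul]
    exact (cm.map φ).isNilpotent_mul_right (wedge_nilpotent hN)
  obtain ⟨n2, hn2, s2, hs2, b1, b2, b3⟩ :=
    (φ (wedge (S * (1 + N)) (S * (1 + N)))).exists_isNilpotent_isSemisimple
  have b4 := (Module.End.isNilpotent_isSemisimple_unique nil ss b1 b2
    ((cm.mul_left (Commute.refl _)).map φ)
    (Algebra.commute_of_mem_adjoin_singleton_of_commute hs2
      (Algebra.commute_of_mem_adjoin_self hn2).symm)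
    (by rw [← b3, ← map_add, wedge_mul, Matrix.sub_mul, Matrix.one_mul, sub_add_cancel])).2
  rw [Algebra.adjoin_singleton_eq_range_aeval] at hs2
  obtain ⟨p, hp⟩ := hs2
  refine ⟨p, φ.injective ?_⟩
  rw [b4, ← hp, ← aeval_algHom_apply φ]
  rfl

theorem rigid_generic3 [IsAlgClosed L] [CharZero L] {I : Type} [Fintype I] [DecidableEq I]
    (hn : 9 ≤ n) (hI : 3 ≤ Fintype.card I) (hI' : Fintype.card I + 3 ≤ n.choose 2)
    (T : Matrix (Pr n) I L) (hT : Function.Injective (toLin' T))
    (gen : ∀ δ : Matrix (Pr n) I L, ∃ D : Derivation ℤ L L, T.map D = δ)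
    (g g' : Matrix (Fin n) (Fin n) L) (hg : g * g' = 1) (h : Matrix I I L)
    (e : wedge g g * T = T * h) : ∃ c : L, g = c • 1 := by
  by_contra hc
  push Not at hc
  let φ : Matrix (Fin n) (Fin n) L ≃ₐ[L] Module.End L (Fin n → L) := Matrix.toLinAlgEquiv'
  obtain ⟨n0, hn0, s0, hs0, a1, a2, a3⟩ := (φ g).exists_isNilpotent_isSemisimple
  have a4 : Commute n0 s0 := Algebra.commute_of_mem_adjoin_singleton_of_commute hs0
    (Algebra.commute_of_mem_adjoin_self hn0).symm
  obtain ⟨N, rfl⟩ := φ.surjective n0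
  obtain ⟨S, rfl⟩ := φ.surjective s0
  have b1 : IsNilpotent N := by simpa using a1.map φ.symm
  have b3 : g = N + S := φ.injective (by rw [a3, map_add])
  have b4 : Commute N S := by simpa using a4.map φ.symm
  obtain ⟨P, P', l, hP, hS⟩ := exists_diag S a2
  have ug : IsUnit g := IsUnit.of_mul_eq_one g' hg
  have uS : IsUnit S := by
    have : S = -N + g := by rw [b3]; abel
    rw [this]
    exact b1.neg.isUnit_add_right_of_commute ug
      (b3 ▸ ((Commute.refl N).add_right b4).neg_left)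
  obtain ⟨S', hS'⟩ := uS.exists_right_inv
  have hS'' := mul_eq_one_comm.1 hS'
  have hl : ∀ i, l i ≠ 0 := fun i h0 => by
    have := ((Matrix.isUnit_iff_isUnit_det _).1 uS).ne_zero
    rw [hS, det_mul, det_mul, det_diagonal, Finset.prod_eq_zero (Finset.mem_univ i) h0] at this
    simp at this
  have c1 : Commute S' N := by
    have : S' * N = S' * (N * S) * S' := by
      rw [Matrix.mul_assoc, Matrix.mul_assoc, hS', Matrix.mul_one]
    change S' * N = N * S'
    rw [this, b4.eq, ← Matrix.mul_assoc, hS'', Matrix.one_mul]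
  have c2 : IsNilpotent (S' * N) := c1.isNilpotent_mul_left b1
  have c3 : g = S * (1 + S' * N) := by
    rw [Matrix.mul_add, ← Matrix.mul_assoc, hS', Matrix.mul_one, Matrix.one_mul, b3, add_comm]
  by_cases hne : ∃ i j, l i ≠ l j
  · have c4 : Commute (S' * N) S := Commute.mul_left (hS''.trans hS'.symm) b4
    obtain ⟨p, hp⟩ := semisimple_part hP l c2 (hS ▸ c4)
    rw [← hS, ← c3] at hp
    refine no_data hn hI hI' T hT gen uS (h := aeval h p) (by rw [← hp, aeval_intertwine e])
      (fun c h1 => ?_) (hS ▸ data_diag hn hP l hl hne)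
    obtain ⟨i, j, hij⟩ := hne
    have d1 : diagonal l = P' * S * P := by
      have hP' := mul_eq_one_comm.1 hP
      rw [hS, Matrix.mul_assoc, Matrix.mul_assoc, hP', Matrix.mul_one, ← Matrix.mul_assoc, hP',
        Matrix.one_mul]
    rw [h1, Matrix.mul_smul, Matrix.mul_one, Matrix.smul_mul, mul_eq_one_comm.1 hP] at d1
    have d2 := congrFun (congrFun d1 i) i
    have d3 := congrFun (congrFun d1 j) j
    simp only [diagonal_apply_eq, Matrix.smul_apply, one_apply_eq] at d2 d3
    exact hij (d2.trans d3.symm)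
  · push Not at hne
    obtain ⟨μ, hμ⟩ : ∃ μ, μ = l ⟨0, by omega⟩ := ⟨_, rfl⟩
    have μ0 : μ ≠ 0 := hμ ▸ hl _
    have d1 : S = μ • 1 := by
      rw [hS, show l = fun _ => μ from funext fun i => hμ ▸ hne _ _, ← smul_one_eq_diagonal,
        Matrix.mul_smul, Matrix.mul_one, Matrix.smul_mul, hP]
    rw [d1, Matrix.smul_mul, Matrix.one_mul] at c3
    refine no_data hn hI hI' T hT gen c2.isUnit_one_add (h := (μ ^ 2)⁻¹ • h) ?_
      (fun c h1 => hc (μ * c) (by rw [c3, h1, smul_smul]))
      (data_unip hn c2 fun h1 => hc μ (by rw [c3, h1, add_zero]))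
    rw [c3, wedge_smul, Matrix.smul_mul] at e
    rw [Matrix.mul_smul, ← e, smul_smul, inv_mul_cancel₀ (pow_ne_zero 2 μ0), one_smul]

end Pool.Agent.Lib.MP_a8bb0e_al.Sharp
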