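import Pool.Agent.Lib.MP_a8bb0e_al.Sharp.Core3

/-! Class dimension and eigenspaces of the exterior square of a diagonalisable matrix. -/

namespace Pool.Agent.Lib.MP_a8bb0e_al.Sharp

open Module LinearMap Matrix Polynomial

variable {L : Type} [Field L] {n : ℕ}

/-- The numerical data attached to a non-scalar matrix. -/
def Data (g : Matrix (Fin n) (Fin n) L) : Prop :=
  ∃ (Γ : Submodule L (Matrix (Pr n) (Pr n) L)) (c : ℕ),
    (∀ D : Derivation ℤ L L, ∃ p : L[X], (wedge g g).map D - aeval (wedge g g) p ∈ Γ ∧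
      ∀ ν : L, (wedge g g - ν • 1).det = 0 → p.eval ν = D ν) ∧
    finrank L Γ + c ≤ n ^ 2 ∧ (∀ ν : L, 2 * n.choose 2 ≤ 2 * (wedge g g - ν • 1).rank + c) ∧
    n ≤ c ∧ (c + 3 * n < n ^ 2 ∨ (n - 1) ^ 2 + 1 ≤ c)

lemma part {ι : Type} [DecidableEq ι] (S : Finset ι) (s : ι → ℕ) (hn : 9 ≤ n)
    (hs : ∑ i ∈ S, s i = n) (hm : ∀ i ∈ S, s i < n) :
    n ≤ ∑ i ∈ S, s i ^ 2 ∧
      (∑ i ∈ S, s i ^ 2 + 3 * n < n ^ 2 ∨ (n - 1) ^ 2 + 1 ≤ ∑ i ∈ S, s i ^ 2) := by
  have low : ∀ S' : Finset ι, ∑ i ∈ S', s i ≤ ∑ i ∈ S', s i ^ 2 := fun S' =>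
    Finset.sum_le_sum fun i _ => Nat.le_self_pow (by norm_num) _
  have up : ∀ (S' : Finset ι) (b : ℕ), (∀ i ∈ S', s i ≤ b) →
      ∑ i ∈ S', s i ^ 2 ≤ b * ∑ i ∈ S', s i := fun S' b hb => by
    rw [Finset.mul_sum]
    exact Finset.sum_le_sum fun i hi => by rw [sq]; exact Nat.mul_le_mul_right _ (hb i hi)
  refine ⟨hs ▸ low S, ?_⟩
  obtain ⟨m, rfl⟩ : ∃ m, n = m + 4 := ⟨n - 4, by omega⟩
  by_cases h : ∀ i ∈ S, s i ≤ m
  · have := up S m h
    rw [hs] at this
    left
    nlinarith
  · push Not at h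
    obtain ⟨i, hi, h⟩ := h
    have e1 := Finset.add_sum_erase S s hi
    have e2 := Finset.add_sum_erase S (fun i => s i ^ 2) hi
    have e3 := up (S.erase i) (∑ j ∈ S.erase i, s j) fun j hj =>
      Finset.single_le_sum (fun _ _ => Nat.zero_le _) hj
    have e4 := low (S.erase i)
    have e5 := hm i hi
    rw [hs] at e1
    rw [← e2, show m + 4 - 1 = m + 3 by omega]
    obtain ⟨ρ, hρ⟩ : ∃ ρ, ρ = ∑ j ∈ S.erase i, s j := ⟨_, rfl⟩
    rw [← hρ] at e1 e3 e4
    have : (ρ = 1 ∧ s i = m + 3) ∨ (ρ = 2 ∧ s i = m + 2) ∨ (ρ = 3 ∧ s i = m + 1) := by omega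
    rcases this with ⟨h1, h2⟩ | ⟨h1, h2⟩ | ⟨h1, h2⟩ <;> rw [h2] <;> rw [h1] at e3 e4
    · right; omega
    · left; nlinarith
    · left; nlinarith

lemma wedge_mulVec (x y : Matrix (Fin n) (Fin n) L) (v : Pr n → L) (p : Pr n) :
    (wedge x y *ᵥ v) p = (xᵀ * alt v * y) p.1.1 p.1.2 := (conj_alt x y v _ _).symm

lemma wedge_mul_right (x y g : Matrix (Fin n) (Fin n) L) :
    wedge x y * wedge g g = wedge (g * x) (g * y) := by
  refine Matrix.ext_of_mulVec_single fun q => funext fun p => ?_
  rw [← mulVec_mulVec, wedge_mulVec, wedge_mulVec, alt_wedge, transpose_mul]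
  simp only [Matrix.mul_assoc]

lemma alt_sym (x y : Matrix (Fin n) (Fin n) L) (v : Pr n → L) :
    alt ((wedge x y + wedge y x) *ᵥ v) = xᵀ * alt v * y + yᵀ * alt v * x :=
  alt_ext (fun i j => by
      simp only [Matrix.add_apply, conj_alt, ← Finset.sum_add_distrib, ← Finset.sum_neg_distrib]
      exact Finset.sum_congr rfl fun _ _ => by ring)
    (fun i => by
      simp only [Matrix.add_apply, conj_alt, ← Finset.sum_add_distrib]
      exact Finset.sum_eq_zero fun _ _ => by ring)
    fun p => by rw [add_mulVec, Pi.add_apply, wedge_mulVec, wedge_mulVec, Matrix.add_apply]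

lemma wedge_mul_left (x y g : Matrix (Fin n) (Fin n) L) :
    wedge g g * (wedge x y + wedge y x) = wedge (x * g) (y * g) + wedge (y * g) (x * g) := by
  refine Matrix.ext_of_mulVec_single fun q => alt_inj ?_
  rw [← mulVec_mulVec, alt_wedge, alt_sym, alt_sym, transpose_mul, transpose_mul]
  simp only [Matrix.mul_add, Matrix.add_mul, Matrix.mul_assoc]

lemma wedge_der (D : Derivation ℤ L L) (g : Matrix (Fin n) (Fin n) L) :
    (wedge g g).map D = wedge (g.map D) g + wedge g (g.map D) := by
  ext p q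
  simp [wedge]; ring

lemma der_one {P : Type} [DecidableEq P] (D : Derivation ℤ L L) :
    (1 : Matrix P P L).map D = 0 := by
  ext i j
  simp only [map_apply, one_apply, Matrix.zero_apply]
  split_ifs <;> simp

lemma wedge_diagonal (l : Fin n → L) :
    wedge (diagonal l) (diagonal l) = diagonal fun p : Pr n => l p.1.1 * l p.1.2 := by
  ext p q
  have hp := p.2
  have hq := q.2
  simp only [wedge, of_apply, diagonal_apply]
  by_cases h : p = q
  · subst h
    simp [hp.ne, hp.ne']
  · have h1 : ¬ (q.1.1 = p.1.1 ∧ q.1.2 = p.1.2) := fun e =>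
      h (Subtype.ext (Prod.ext e.1.symm e.2.symm))
    have h2 : ¬ (q.1.2 = p.1.1 ∧ q.1.1 = p.1.2) := fun e =>
      lt_asymm hp (by rw [← e.1, ← e.2]; exact hq)
    rw [if_neg h]
    by_cases a1 : q.1.1 = p.1.1 <;> by_cases a2 : q.1.2 = p.1.2 <;>
      by_cases a3 : q.1.2 = p.1.1 <;> by_cases a4 : q.1.1 = p.1.2 <;> simp_all

lemma aeval_conj {P : Type} [Fintype P] [DecidableEq P] {W W' : Matrix P P L} (h : W * W' = 1)
    (d : P → L) (p : L[X]) :
    aeval (W' * diagonal d * W) p = W' * diagonal (fun i => p.eval (d i)) * W := by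
  have h' := mul_eq_one_comm.1 h
  have e1 : aeval (diagonal d) p = diagonal fun i => p.eval (d i) := by
    induction p using Polynomial.induction_on' with
    | add p q hp hq => simp only [map_add, hp, hq, eval_add, diagonal_add]
    | monomial i a =>
      rw [aeval_monomial, ← Algebra.smul_def, diagonal_pow, ← diagonal_smul]
      congr 1
      funext j
      simp
  have e2 := aeval_intertwine (A := W' * diagonal d * W) (T := W') (h := diagonal d)
    (by rw [Matrix.mul_assoc, h, Matrix.mul_one]) p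
  rw [← e1, ← e2, Matrix.mul_assoc _ W' W, h', Matrix.mul_one]

lemma count_pairs [DecidableEq L] (l : Fin n → L) (hl : ∀ i, l i ≠ 0) (ν : L) :
    2 * (Finset.univ.filter fun p : Pr n => l p.1.1 * l p.1.2 = ν).card ≤
      ∑ μ ∈ Finset.univ.image l, (Finset.univ.filter fun i => l i = μ).card ^ 2 := by
  obtain ⟨s, hs⟩ : ∃ s : L → ℕ, s = fun μ => (Finset.univ.filter fun i => l i = μ).card :=
    ⟨_, rfl⟩
  obtain ⟨Q, hQ⟩ : ∃ Q, Q = Finset.univ.filter fun p : Fin n × Fin n => l p.1 * l p.2 = ν :=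
    ⟨_, rfl⟩
  have h1 : 2 * (Finset.univ.filter fun p : Pr n => l p.1.1 * l p.1.2 = ν).card ≤ Q.card := by
    rw [← Finset.card_filter_add_card_filter_not (s := Q) (fun p => p.1 < p.2), two_mul]
    refine add_le_add (Finset.card_le_card_of_injOn (fun p => p.1) ?_ fun _ _ _ _ e =>
      Subtype.ext e) (Finset.card_le_card_of_injOn (fun p => p.1.swap) ?_ fun _ _ _ _ e =>
      Subtype.ext (Prod.swap_injective e))
    · intro p hp
      simp only [hQ, Finset.coe_filter, Finset.mem_filter, Finset.mem_univ, true_and,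
        Set.mem_ofPred_eq] at hp ⊢
      exact ⟨hp, p.2⟩
    · intro p hp
      simp only [hQ, Finset.coe_filter, Finset.mem_filter, Finset.mem_univ, true_and,
        Set.mem_ofPred_eq, Prod.fst_swap, Prod.snd_swap] at hp ⊢
      exact ⟨by rw [mul_comm, hp], lt_asymm p.2⟩
  refine h1.trans ?_
  by_cases hν : ν = 0
  · have : Q = ∅ := by
      rw [hQ, Finset.filter_eq_empty_iff]
      exact fun p _ => hν ▸ mul_ne_zero (hl _) (hl _)
    rw [this]
    exact Nat.zero_le _
  have h2 : Q.card = ∑ μ ∈ Finset.univ.image l, s μ * s (ν / μ) := by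
    rw [Finset.card_eq_sum_card_fiberwise (f := fun p : Fin n × Fin n => l p.1)
      (t := Finset.univ.image l) fun p _ => Finset.mem_image_of_mem l (Finset.mem_univ _)]
    refine Finset.sum_congr rfl fun μ hμ => ?_
    obtain ⟨i, -, rfl⟩ := Finset.mem_image.1 hμ
    rw [hs, ← Finset.card_product]
    congr 1
    ext p
    simp only [hQ, Finset.mem_filter, Finset.mem_univ, true_and, Finset.mem_product]
    constructor
    · rintro ⟨a, b⟩
      exact ⟨b, by rw [← a, b, mul_div_cancel_left₀ _ (hl i)]⟩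
    · rintro ⟨a, b⟩
      exact ⟨by rw [a, b, mul_div_cancel₀ _ (hl i)], a⟩
  have h3 : ∑ μ ∈ Finset.univ.image l, s (ν / μ) ^ 2 ≤ ∑ μ ∈ Finset.univ.image l, s μ ^ 2 := by
    rw [← Finset.sum_image (s := Finset.univ.image l) (g := fun μ => ν / μ) (f := fun μ => s μ ^ 2)
      fun a _ b _ e => inv_injective (mul_left_cancel₀ hν (by simpa only [div_eq_mul_inv] using e))]
    refine Finset.sum_le_sum_of_ne_zero fun μ _ h0 => ?_
    obtain ⟨i, hi⟩ := Finset.card_pos.1 (Nat.pos_of_ne_zero (show s μ ≠ 0 from fun e => h0 (by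
      rw [e]; rfl)) |>.trans_eq (by rw [hs]))
    exact Finset.mem_image.2 ⟨i, Finset.mem_univ _, (Finset.mem_filter.1 hi).2⟩
  have h4 : 2 * ∑ μ ∈ Finset.univ.image l, s μ * s (ν / μ) ≤
      ∑ μ ∈ Finset.univ.image l, s μ ^ 2 + ∑ μ ∈ Finset.univ.image l, s (ν / μ) ^ 2 := by
    rw [Finset.mul_sum, ← Finset.sum_add_distrib]
    exact Finset.sum_le_sum fun μ _ => by nlinarith [sq_nonneg ((s μ : ℤ) - s (ν / μ))]
  have h5 : ∑ μ ∈ Finset.univ.image l, (Finset.univ.filter fun i => l i = μ).card ^ 2 =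
      ∑ μ ∈ Finset.univ.image l, s μ ^ 2 := by rw [hs]
  omega

theorem data_diag (hn : 9 ≤ n) {P P' : Matrix (Fin n) (Fin n) L} (hP : P * P' = 1) (l : Fin n → L)
    (hl : ∀ i, l i ≠ 0) (hne : ∃ i j, l i ≠ l j) : Data (P * diagonal l * P') := by
  classical
  have hP' := mul_eq_one_comm.1 hP
  obtain ⟨g, hg⟩ : ∃ g, g = P * diagonal l * P' := ⟨_, rfl⟩
  obtain ⟨d, hd⟩ : ∃ d : Pr n → L, d = fun p => l p.1.1 * l p.1.2 := ⟨_, rfl⟩
  have hW : wedge P P * wedge P' P' = 1 := by rw [← wedge_mul, hP', wedge_one]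
  have hW' := mul_eq_one_comm.1 hW
  have hA : wedge g g = wedge P' P' * diagonal d * wedge P P := by
    rw [hg, wedge_mul, wedge_mul, wedge_diagonal, hd, Matrix.mul_assoc]
  have hAν : ∀ ν : L, wedge g g - ν • 1 = wedge P' P' * diagonal (fun p => d p - ν) * wedge P P :=
    fun ν => by
      have := aeval_conj hW d (X - C ν)
      rw [← hA, map_sub, aeval_X, aeval_C, Algebra.algebraMap_eq_smul_one] at this
      simpa only [eval_sub, eval_X, eval_C] using this
  rw [← hg]
  let Φ : Matrix (Fin n) (Fin n) L →ₗ[L] Matrix (Pr n) (Pr n) L :=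
    { toFun := fun Y => (wedge (P * Y * P') 1 + wedge 1 (P * Y * P')) * wedge g g -
        wedge g g * (wedge (P * Y * P') 1 + wedge 1 (P * Y * P'))
      map_add' := fun Y Y' => by
        have e : wedge (P * (Y + Y') * P') 1 + wedge 1 (P * (Y + Y') * P') =
            (wedge (P * Y * P') 1 + wedge 1 (P * Y * P')) +
              (wedge (P * Y' * P') 1 + wedge 1 (P * Y' * P')) := by
          rw [Matrix.mul_add, Matrix.add_mul]
          ext; simp [wedge]; ring
        rw [e, Matrix.add_mul, Matrix.mul_add]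
        abel
      map_smul' := fun c Y => by
        have e : wedge (P * (c • Y) * P') 1 + wedge 1 (P * (c • Y) * P') =
            c • (wedge (P * Y * P') 1 + wedge 1 (P * Y * P')) := by
          rw [Matrix.mul_smul, Matrix.smul_mul]
          ext; simp [wedge]; ring
        rw [e, Matrix.smul_mul, Matrix.mul_smul, RingHom.id_apply, smul_sub] }
  have hΦ : ∀ Y, Φ Y = (wedge (P * Y * P') 1 + wedge 1 (P * Y * P')) * wedge g g -
      wedge g g * (wedge (P * Y * P') 1 + wedge 1 (P * Y * P')) := fun _ => rfl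
  have hpart := part (Finset.univ.image l) (fun μ => (Finset.univ.filter fun i => l i = μ).card) hn
    (by
      rw [← Finset.card_eq_sum_card_fiberwise (f := l)
        fun i _ => Finset.mem_image_of_mem l (Finset.mem_univ i)]
      simp) (fun μ _ => by
      obtain ⟨i, j, hij⟩ := hne
      refine (Finset.card_lt_card (Finset.filter_ssubset.2 ?_)).trans_eq (by simp)
      by_cases h : l i = μ
      · exact ⟨j, Finset.mem_univ _, fun e => hij (h.trans e.symm)⟩
      · exact ⟨i, Finset.mem_univ _, h⟩)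
  refine ⟨range Φ, _, fun D => ?_, ?_, fun ν => ?_, hpart⟩
  · refine ⟨Lagrange.interpolate (Finset.univ.image d) _root_.id D, ⟨P'.map D * P, ?_⟩, fun ν hν => ?_⟩
    · have ev : (fun p => (Lagrange.interpolate (Finset.univ.image d) _root_.id D).eval (d p)) =
          fun p => D (d p) := funext fun p =>
        Lagrange.eval_interpolate_at_node (v := _root_.id) D (Set.injOn_id _)
          (Finset.mem_image_of_mem d (Finset.mem_univ p))
      have eF : wedge (P * (P'.map D * P) * P') 1 + wedge 1 (P * (P'.map D * P) * P') =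
          (wedge P' P').map D * wedge P P := by
        rw [wedge_der, Matrix.add_mul, wedge_mul_right, wedge_mul_right, hP, Matrix.mul_assoc P,
          Matrix.mul_assoc, hP, Matrix.mul_one]
      have e0 := dmul D (wedge P' P') (wedge P P)
      rw [hW', der_one] at e0
      rw [hΦ, eF]
      nth_rewrite 4 [hA]
      rw [aeval_conj hW, ev, hA, dmul, dmul, diagonal_map (map_zero D)]
      have e1 : wedge P P * ((wedge P' P').map D * wedge P P) = -(wedge P P).map D := by
        rw [eq_neg_of_add_eq_zero_left e0.symm, Matrix.mul_neg, ← Matrix.mul_assoc, hW,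
          Matrix.one_mul]
      simp only [Matrix.mul_assoc, Matrix.add_mul, e1]
      rw [← Matrix.mul_assoc (wedge P P) (wedge P' P'), hW, Matrix.one_mul, Matrix.mul_neg,
        Matrix.mul_neg]
      abel
    · rw [hAν, det_mul, det_mul, det_diagonal] at hν
      have a1 : (wedge P' P').det * (wedge P P).det = 1 := by rw [← det_mul, hW', det_one]
      have a2 : ∏ p, (d p - ν) = 0 := by
        linear_combination hν - (∏ p, (d p - ν)) * a1
      obtain ⟨p, -, hp⟩ := Finset.prod_eq_zero_iff.1 a2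
      rw [← sub_eq_zero.1 hp]
      exact Lagrange.eval_interpolate_at_node (v := _root_.id) D (Set.injOn_id _)
        (Finset.mem_image_of_mem d (Finset.mem_univ p))
  · let R : Matrix (Fin n) (Fin n) L →ₗ[L] ({p : Fin n × Fin n // l p.1 ≠ l p.2} → L) :=
      { toFun := fun Y p => Y p.1.1 p.1.2
        map_add' := fun _ _ => rfl
        map_smul' := fun _ _ => rfl }
    have k1 : ker R ≤ ker Φ := fun Y hY => by
      have c1 : diagonal l * Y = Y * diagonal l := by
        ext i j
        rw [diagonal_mul, mul_diagonal]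
        by_cases h : l i = l j
        · rw [h, mul_comm]
        · have : Y i j = 0 := congrFun hY ⟨(i, j), h⟩
          rw [this, mul_zero, zero_mul]
      have c2 : g * (P * Y * P') = P * Y * P' * g := by
        rw [hg]
        simp only [Matrix.mul_assoc]
        rw [← Matrix.mul_assoc P' P, ← Matrix.mul_assoc P' P, hP', Matrix.one_mul, Matrix.one_mul,
          ← Matrix.mul_assoc, ← Matrix.mul_assoc, Matrix.mul_assoc P, c1]
        simp only [Matrix.mul_assoc]
      rw [mem_ker, hΦ, wedge_mul_left, Matrix.add_mul, wedge_mul_right, wedge_mul_right, c2, Matrix.mul_one,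
        Matrix.one_mul, sub_self]
    have k2 := Submodule.finrank_mono k1
    have k3 := finrank_range_add_finrank_ker R
    have k4 := finrank_range_add_finrank_ker Φ
    have k5 : finrank L (range R) ≤
        (Finset.univ.filter fun p : Fin n × Fin n => ¬ l p.1 = l p.2).card := by
      have := (range R).finrank_le
      rwa [finrank_fintype_fun_eq_card, Fintype.card_subtype] at this
    have k6 := Finset.card_filter_add_card_filter_not (s := (Finset.univ : Finset (Fin n × Fin n)))
      (fun p => l p.1 = l p.2)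
    have k7 : (Finset.univ.filter fun p : Fin n × Fin n => l p.1 = l p.2).card =
        ∑ μ ∈ Finset.univ.image l, (Finset.univ.filter fun i => l i = μ).card ^ 2 := by
      rw [Finset.card_eq_sum_card_fiberwise (f := fun p : Fin n × Fin n => l p.1)
        (t := Finset.univ.image l) fun p _ => Finset.mem_image_of_mem l (Finset.mem_univ _)]
      refine Finset.sum_congr rfl fun μ _ => ?_
      rw [sq, ← Finset.card_product]
      congr 1
      ext p
      simp only [Finset.mem_filter, Finset.mem_univ, true_and, Finset.mem_product]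
      constructor
      · rintro ⟨a, b⟩
        exact ⟨b, a ▸ b⟩
      · rintro ⟨a, b⟩
        exact ⟨a.trans b.symm, a⟩
    rw [Finset.card_univ, Fintype.card_prod, Fintype.card_fin, ← sq] at k6
    omega
  · have a1 : IsUnit (wedge P P).det := isUnit_det_of_right_inverse hW
    have a2 : IsUnit (wedge P' P').det := isUnit_det_of_right_inverse hW'
    rw [hAν, rank_mul_eq_left_of_isUnit_det _ _ a1, rank_mul_eq_right_of_isUnit_det _ _ a2,
      Matrix.rank_diagonal, Fintype.card_subtype]
    have k1 := count_pairs l hl ν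
    have k2 := Finset.card_filter_add_card_filter_not (s := (Finset.univ : Finset (Pr n)))
      (fun p => l p.1.1 * l p.1.2 = ν)
    rw [Finset.card_univ, card_Pr] at k2
    simp only [hd, ne_eq, sub_eq_zero]
    omega

end Pool.Agent.Lib.MP_a8bb0e_al.Sharp
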