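import Pool.Agent.Lib.MP_a8bb0e_al.Sharp.Semi

/-! Class dimension and fixed space of the exterior square of a unipotent matrix. -/

namespace Pool.Agent.Lib.MP_a8bb0e_al.Sharp

open Module LinearMap Matrix Polynomial

variable {L : Type} [Field L] {n : ℕ}

lemma exists_sandwich {a b : Type} [Fintype a] [Fintype b] [DecidableEq a] [DecidableEq b]
    (X : Matrix a b L) :
    ∃ (X1 : Matrix (Fin X.rank) a L) (X2 : Matrix b (Fin X.rank) L), X1 * X * X2 = 1 := by
  let e : range (toLin' X) ≃ₗ[L] (Fin X.rank → L) :=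
    (Module.finBasisOfFinrankEq L (range (toLin' X)) (rk_eq X)).equivFun
  obtain ⟨σ, hσ⟩ := (toLin' X).rangeRestrict.exists_rightInverse_of_surjective
    (range_rangeRestrict _)
  obtain ⟨π, hπ⟩ := (range (toLin' X)).subtype.exists_leftInverse_of_injective
    (Submodule.ker_subtype _)
  refine ⟨LinearMap.toMatrix' (e.toLinearMap.comp π), LinearMap.toMatrix' (σ.comp e.symm.toLinearMap),
    toLin'.injective (LinearMap.ext fun w => ?_)⟩
  rw [toLin'_mul, toLin'_mul, toLin'_toMatrix', toLin'_toMatrix', toLin'_one]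
  have a1 : toLin' X (σ (e.symm w)) = (e.symm w : a → L) :=
    congrArg Subtype.val (LinearMap.congr_fun hσ (e.symm w))
  have a2 : π (e.symm w : a → L) = e.symm w := LinearMap.congr_fun hπ (e.symm w)
  change e (π (toLin' X (σ (e.symm w)))) = w
  rw [a1, a2, LinearEquiv.apply_symm_apply]

lemma rank_mul_inj {a b c : Type} [Fintype a] [Fintype b] [Fintype c] [DecidableEq b]
    [DecidableEq c] (B : Matrix a b L) (C : Matrix b c L) (hC : Function.Injective (toLin' C)) :
    B.rank + Fintype.card c ≤ (B * C).rank + Fintype.card b := by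
  have h1 := finrank_range_add_finrank_ker (toLin' B)
  have h2 := finrank_range_add_finrank_ker (toLin' (B * C))
  have h3 : finrank L (ker (toLin' (B * C))) ≤ finrank L (ker (toLin' B)) := by
    rw [(Submodule.equivMapOfInjective _ hC _).finrank_eq]
    refine Submodule.finrank_mono ?_
    rintro _ ⟨x, hx, rfl⟩
    rw [mem_ker, ← toLin'_mul_apply]
    exact hx
  rw [rk_eq, finrank_fintype_fun_eq_card] at h1 h2
  omega

/-- The formal derivative of a power. -/
noncomputable def dp (N : Matrix (Fin n) (Fin n) L) :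
    ℕ → Matrix (Fin n) (Fin n) L →ₗ[L] Matrix (Fin n) (Fin n) L
  | 0 => 0
  | j + 1 => mulRightLinearMap _ L (N ^ j) + (mulLeftLinearMap _ L N).comp (dp N j)

lemma dp_succ (N Y : Matrix (Fin n) (Fin n) L) (j : ℕ) :
    dp N (j + 1) Y = Y * N ^ j + N * dp N j Y := rfl

lemma dp_der (D : Derivation ℤ L L) (N : Matrix (Fin n) (Fin n) L) (j : ℕ) :
    (N ^ j).map D = dp N j (N.map D) := by
  induction j with
  | zero => rw [pow_zero, der_one]; rfl
  | succ j ih => rw [pow_succ', dmul, ih, dp_succ]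

lemma dp_mul (N Y : Matrix (Fin n) (Fin n) L) (i j : ℕ) :
    dp N j (N ^ i * Y) = N ^ i * dp N j Y := by
  induction j with
  | zero => exact (Matrix.mul_zero _).symm
  | succ j ih =>
    rw [dp_succ, dp_succ, ih, Matrix.mul_add, Matrix.mul_assoc, ← Matrix.mul_assoc N,
      ← Matrix.mul_assoc (N ^ i) N, ← pow_succ, ← pow_succ']

lemma exists_tangent (N : Matrix (Fin n) (Fin n) L) (j : ℕ) :
    ∃ Γ : Submodule L (Matrix (Fin n) (Fin n) L), (∀ D : Derivation ℤ L L, N.map D ∈ Γ) ∧
      (∀ Y, N ^ j * Y ∈ Γ) ∧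
      finrank L Γ + ∑ i ∈ Finset.range j, ((N ^ i).rank - (N ^ (i + 1)).rank) ^ 2 ≤ n ^ 2 := by
  induction j with
  | zero =>
    refine ⟨⊤, fun _ => trivial, fun _ => trivial, ?_⟩
    simp [finrank_matrix, sq]
  | succ j ih =>
    obtain ⟨Γ, h1, h2, h3⟩ := ih
    obtain ⟨p, C, a1, a2, a3, -⟩ := ker_basis (N ^ (j + 1))
    obtain ⟨p', E, b1, b2, b3, -⟩ := ker_basis (N ^ (j + 1))ᵀ
    have e3 : Eᵀ * N ^ (j + 1) = 0 := by
      rw [← transpose_transpose (N ^ (j + 1)), ← transpose_mul, b3, transpose_zero]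
    let Φ : Matrix (Fin n) (Fin n) L →ₗ[L] Matrix (Fin p') (Fin p) L :=
      ((mulRightLinearMap _ L C).comp (mulLeftLinearMap _ L Eᵀ)).comp (dp N (j + 1))
    have hΦ : ∀ Y, Φ Y = Eᵀ * dp N (j + 1) Y * C := fun _ => rfl
    refine ⟨Γ ⊓ ker Φ, fun D => ⟨h1 D, ?_⟩, fun Y => ⟨?_, ?_⟩, ?_⟩
    · have e2 := congrArg (fun M => Eᵀ * M) (dmul D (N ^ (j + 1)) C)
      simp only [a3, Matrix.mul_add, ← Matrix.mul_assoc, e3, Matrix.zero_mul, add_zero] at e2
      change Φ _ = 0
      rw [hΦ, ← dp_der, ← e2, Matrix.map_zero _ (map_zero D), Matrix.mul_zero]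
    · rw [pow_succ, Matrix.mul_assoc]
      exact h2 _
    · change Φ _ = 0
      rw [hΦ, dp_mul, ← Matrix.mul_assoc, e3, Matrix.zero_mul, Matrix.zero_mul]
    · obtain ⟨X1, X2, hX⟩ := exists_sandwich (Eᵀ * N ^ j)
      obtain ⟨Y1, Y2, hY⟩ := exists_sandwich (N ^ j * C)
      have c1 := rank_mul_inj (N ^ j) C a2
      have c2 := rank_mul_inj (N ^ j)ᵀ E b2
      rw [← rank_transpose (_ * E), transpose_mul, transpose_transpose, rank_transpose] at c2
      rw [rank_transpose] at b1
      simp only [Fintype.card_fin] at a1 b1 c1 c2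
      let Ψ : Matrix (Fin p') (Fin p) L →ₗ[L] Matrix (Fin (Eᵀ * N ^ j).rank) (Fin (N ^ j * C).rank) L :=
        (mulRightLinearMap _ L Y2).comp (mulLeftLinearMap _ L X1)
      have c3 : (Γ.map Φ).map Ψ = ⊤ := eq_top_iff.2 fun Z _ => by
        refine ⟨_, ⟨_, h2 (X2 * Z * Y1), rfl⟩, ?_⟩
        change X1 * Φ _ * Y2 = Z
        rw [hΦ, dp_mul, dp_succ, Matrix.mul_add, ← Matrix.mul_assoc (N ^ j) N, ← pow_succ,
          Matrix.mul_add, ← Matrix.mul_assoc Eᵀ (N ^ (j + 1)), e3, Matrix.zero_mul, add_zero]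
        calc X1 * (Eᵀ * (N ^ j * (X2 * Z * Y1 * N ^ j)) * C) * Y2
            = (X1 * (Eᵀ * N ^ j) * X2) * Z * (Y1 * (N ^ j * C) * Y2) := by
              simp only [Matrix.mul_assoc]
          _ = Z := by rw [hX, hY, Matrix.one_mul, Matrix.mul_one]
      have c4 := Submodule.finrank_map_le Ψ (Γ.map Φ)
      rw [c3, finrank_top, finrank_matrix] at c4
      simp only [Fintype.card_fin, finrank_self, mul_one] at c4
      have c5 := finrank_le_map_add Γ Φ
      have c6 : ((N ^ j).rank - (N ^ (j + 1)).rank) ^ 2 ≤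
          (Eᵀ * N ^ j).rank * (N ^ j * C).rank := by
        rw [sq]
        exact Nat.mul_le_mul (by omega) (by omega)
      rw [Finset.sum_range_succ]
      omega

lemma two_choose (t : ℕ) : 2 * t.choose 2 + t = t ^ 2 := by
  rw [Nat.choose_two_right, Nat.mul_div_cancel' (Nat.even_mul_pred_self t).two_dvd]
  cases t with
  | zero => rfl
  | succ t => rw [Nat.add_sub_cancel]; ring

lemma dim_alt [CharZero L] {t : ℕ} (Q : Submodule L (Matrix (Fin t) (Fin t) L))
    (h : ∀ Z ∈ Q, Zᵀ = -Z) : 2 * finrank L Q + t ≤ t ^ 2 := by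
  have h1 : Q ≤ range (alt : (Pr t → L) →ₗ[L] _) := fun Z hZ =>
    ⟨fun p => Z p.1.1 p.1.2, alt_ext (fun i j => congrFun (congrFun (h Z hZ) i) j) (fun i => by
      have : Z i i = -Z i i := congrFun (congrFun (h Z hZ) i) i
      exact self_eq_neg.1 this) fun _ => rfl⟩
  have h2 := (Submodule.finrank_mono h1).trans (finrank_range_le _)
  rw [finrank_fintype_fun_eq_card, card_Pr] at h2
  have := two_choose t
  omega

lemma dim_sym {t : ℕ} (Q : Submodule L (Matrix (Fin t) (Fin t) L))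
    (h : ∀ Z ∈ Q, Zᵀ = Z) : 2 * finrank L Q ≤ t ^ 2 + t := by
  let R : Matrix (Fin t) (Fin t) L →ₗ[L] (Pr t ⊕ Fin t → L) :=
    { toFun := fun Z => Sum.elim (fun p => Z p.1.1 p.1.2) fun i => Z i i
      map_add' := fun _ _ => by ext (_ | _) <;> rfl
      map_smul' := fun _ _ => by ext (_ | _) <;> rfl }
  have h1 := finrank_le_map_add Q R
  have h2 : Q ⊓ ker R = ⊥ := eq_bot_iff.2 fun Z hZ => by
    ext i j
    rcases lt_trichotomy i j with c | rfl | c
    · exact congrFun hZ.2 (Sum.inl ⟨(i, j), c⟩)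
    · exact congrFun hZ.2 (Sum.inr i)
    · exact (congrFun (congrFun (h Z hZ.1) i) j).symm.trans (congrFun hZ.2 (Sum.inl ⟨(j, i), c⟩))
  have h3 := (Q.map R).finrank_le
  rw [h2, finrank_bot] at h1
  rw [finrank_fintype_fun_eq_card, Fintype.card_sum, card_Pr, Fintype.card_fin] at h3
  have := two_choose t
  omega

lemma filt_step (H : Matrix (Fin n) (Fin n) L) (K : Submodule L (Matrix (Fin n) (Fin n) L))
    (j : ℕ) (ε : L) (hK : ∀ M ∈ K, (M * H ^ j)ᵀ = ε • (M * H ^ j)) :
    ∃ (t : ℕ) (Q : Submodule L (Matrix (Fin t) (Fin t) L)), (∀ Z ∈ Q, Zᵀ = ε • Z) ∧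
      t ≤ (H ^ j).rank - (H ^ (j + 1)).rank ∧
      finrank L (K ⊓ ker (mulRightLinearMap _ L (H ^ (j + 1))) : Submodule L _) ≤
        finrank L (K ⊓ ker (mulRightLinearMap _ L (H ^ j)) : Submodule L _) + finrank L Q := by
  obtain ⟨p, C, a1, a2, a3, -⟩ := ker_basis (H ^ j)
  obtain ⟨t, E, b1, b2, -, b4⟩ := ker_basis (fromCols H C)ᵀ
  obtain ⟨E', hE⟩ := left_inv b2
  let Ψ : Matrix (Fin n) (Fin n) L →ₗ[L] Matrix (Fin t) (Fin t) L :=
    ((mulRightLinearMap _ L E'ᵀ).comp (mulLeftLinearMap _ L E')).comp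
      (mulRightLinearMap _ L (H ^ j))
  have hΨ : ∀ M, Ψ M = E' * (M * H ^ j) * E'ᵀ := fun _ => rfl
  refine ⟨t, (K ⊓ ker (mulRightLinearMap _ L (H ^ (j + 1)))).map Ψ, ?_, ?_, ?_⟩
  · rintro _ ⟨M, hM, rfl⟩
    rw [hΨ, transpose_mul, transpose_mul, transpose_transpose, hK M hM.1, Matrix.smul_mul,
      Matrix.mul_smul, Matrix.mul_assoc E']
  · have c1 := finrank_le_map_add (range (toLin' (fromCols H C))) (toLin' (H ^ j))
    have c2 : range (toLin' (H ^ (j + 1))) ≤
        (range (toLin' (fromCols H C))).map (toLin' (H ^ j)) := by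
      rintro _ ⟨x, rfl⟩
      refine ⟨_, ⟨Sum.elim x 0, rfl⟩, ?_⟩
      rw [pow_succ, toLin'_mul_apply]
      simp [fromCols_mulVec]
    have c3 : range (toLin' C) ≤ range (toLin' (fromCols H C)) ⊓ ker (toLin' (H ^ j)) := by
      rintro _ ⟨x, rfl⟩
      refine ⟨⟨Sum.elim 0 x, by simp [fromCols_mulVec]⟩, ?_⟩
      change toLin' (H ^ j) (toLin' C x) = 0
      rw [← toLin'_mul_apply, a3, map_zero, LinearMap.zero_apply]
    have c4 := Submodule.finrank_mono c2
    have c5 := Submodule.finrank_mono c3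
    rw [finrank_range_of_inj a2, finrank_fintype_fun_eq_card, Fintype.card_fin] at c5
    rw [rk_eq] at c1 c4
    rw [rank_transpose] at b1
    rw [Fintype.card_fin] at a1 b1
    omega
  · rw [finrank_le_map_add _ Ψ, add_comm]
    refine add_le_add (Submodule.finrank_mono ?_) le_rfl
    rintro M ⟨⟨h1, h2⟩, h3⟩
    refine ⟨h1, ?_⟩
    obtain ⟨M', hM'⟩ : ∃ M', M' = M * H ^ j := ⟨_, rfl⟩
    have d0 : M'ᵀ = ε • M' := hM' ▸ hK M h1
    have d1 : M' * H = 0 := by rw [hM', Matrix.mul_assoc, ← pow_succ]; exact h2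
    have d2 : M' * C = 0 := by rw [hM', Matrix.mul_assoc, a3, Matrix.mul_zero]
    have d3 : E' * M' * E'ᵀ = 0 := hM' ▸ h3
    obtain ⟨Z, hZ⟩ := b4 _ M'ᵀ (by
      rw [← transpose_mul, mul_fromCols, d1, d2, fromCols_zero, transpose_zero])
    have d4 : E * (E' * M'ᵀ) = M'ᵀ := by
      rw [hZ, ← Matrix.mul_assoc E', hE, Matrix.one_mul]
    have d5 : M' * E'ᵀ * Eᵀ = M' := by
      have := congrArg transpose d4
      rwa [transpose_mul, transpose_mul, transpose_transpose] at this
    have d6 : M'ᵀ = 0 := by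
      rw [← d4, d0, Matrix.mul_smul, ← d5, ← Matrix.mul_assoc, ← Matrix.mul_assoc, d3,
        Matrix.zero_mul, smul_zero, Matrix.mul_zero]
    change M * H ^ j = 0
    rw [← hM', ← transpose_transpose M', d6, transpose_zero]

lemma rank_step (H : Matrix (Fin n) (Fin n) L) (j : ℕ) :
    (H ^ (j + 1)).rank ≤ (H ^ j).rank ∧
      (H ^ (j + 1)).rank - (H ^ (j + 1 + 1)).rank ≤ (H ^ j).rank - (H ^ (j + 1)).rank := by
  have e : ∀ i, (H ^ i).rank = (H ^ (i + 1)).rank +
      finrank L (range (toLin' (H ^ i)) ⊓ ker (toLin' H) : Submodule L _) := fun i => by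
    rw [← rk_eq, finrank_le_map_add _ (toLin' H), ← range_comp, ← toLin'_mul, ← pow_succ', rk_eq]
  have e1 := e j
  have e2 := e (j + 1)
  have e3 : finrank L (range (toLin' (H ^ (j + 1))) ⊓ ker (toLin' H) : Submodule L _) ≤
      finrank L (range (toLin' (H ^ j)) ⊓ ker (toLin' H) : Submodule L _) := by
    refine Submodule.finrank_mono (inf_le_inf_right _ ?_)
    rw [pow_succ, toLin'_mul]
    exact range_comp_le_range _ _
  omega

lemma filt_bound [CharZero L] (H : Matrix (Fin n) (Fin n) L)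
    (K : Submodule L (Matrix (Fin n) (Fin n) L))
    (hK : ∀ M ∈ K, Mᵀ = -M ∧ Hᵀ * M = -(M * H)) (i : ℕ) :
    2 * finrank L (K ⊓ ker (mulRightLinearMap _ L (H ^ (2 * i))) : Submodule L _) ≤
      ∑ j ∈ Finset.range (2 * i), ((H ^ j).rank - (H ^ (j + 1)).rank) ^ 2 := by
  have sg : ∀ M ∈ K, ∀ j : ℕ, (M * H ^ j)ᵀ = (-(-1 : L) ^ j) • (M * H ^ j) := fun M hM j => by
    induction j with
    | zero => simpa using (hK M hM).1
    | succ j ih =>
      rw [pow_succ, ← Matrix.mul_assoc, transpose_mul, ih, Matrix.mul_smul, ← Matrix.mul_assoc,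
        (hK M hM).2, Matrix.neg_mul, Matrix.mul_assoc, Matrix.mul_assoc, ← pow_succ, ← pow_succ',
        pow_succ (-1 : L), mul_neg, mul_one, neg_neg, neg_smul, smul_neg, neg_neg]
  induction i with
  | zero =>
    have : (K ⊓ ker (mulRightLinearMap _ L (H ^ (2 * 0))) : Submodule L _) = ⊥ :=
      eq_bot_iff.2 fun M hM => by
        have : M * H ^ (2 * 0) = 0 := hM.2
        simpa using this
    rw [this, finrank_bot]
    exact Nat.zero_le _
  | succ i ih =>
    obtain ⟨t, Q, a1, a2, a3⟩ := filt_step H K (2 * i) _ fun M hM => sg M hM _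
    obtain ⟨t', Q', b1, b2, b3⟩ := filt_step H K (2 * i + 1) _ fun M hM => sg M hM _
    have c1 := dim_alt Q fun Z hZ => by rw [a1 Z hZ]; simp
    have c2 := dim_sym Q' fun Z hZ => by rw [b1 Z hZ]; simp [pow_succ]
    have c3 := (rank_step H (2 * i)).2
    rw [show 2 * (i + 1) = 2 * i + 1 + 1 by ring, Finset.sum_range_succ, Finset.sum_range_succ]
    generalize (H ^ (2 * i)).rank - (H ^ (2 * i + 1)).rank = s at *
    generalize (H ^ (2 * i + 1)).rank - (H ^ (2 * i + 1 + 1)).rank = s' at *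
    have c4 : t ^ 2 + s ≤ s ^ 2 + t := by
      obtain ⟨u, rfl⟩ := Nat.exists_eq_add_of_le a2
      nlinarith [Nat.le_self_pow two_ne_zero u]
    have c5 : t' ^ 2 ≤ s' ^ 2 := Nat.pow_le_pow_left b2 2
    omega

lemma wedge_nilpotent {N : Matrix (Fin n) (Fin n) L} (hN : IsNilpotent N) :
    IsNilpotent (toLin' (wedge (1 + N) (1 + N) - 1)) := by
  let a : Module.End L (Matrix (Fin n) (Fin n) L) := mulLeftLinearMap _ L Nᵀ
  let b : Module.End L (Matrix (Fin n) (Fin n) L) := mulRightLinearMap _ L N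
  have ha : IsNilpotent a := by
    obtain ⟨k, hk⟩ := hN
    refine ⟨k, LinearMap.ext fun M => ?_⟩
    have : ∀ i : ℕ, (a ^ i) M = (N ^ i)ᵀ * M := fun i => by
      induction i with
      | zero => simp
      | succ i ih =>
        rw [pow_succ', Module.End.mul_apply, ih, pow_succ, transpose_mul, Matrix.mul_assoc]
        rfl
    rw [this, hk, transpose_zero, Matrix.zero_mul]
    rfl
  have hb : IsNilpotent b := by
    obtain ⟨k, hk⟩ := hN
    refine ⟨k, LinearMap.ext fun M => ?_⟩
    have : ∀ i : ℕ, (b ^ i) M = M * N ^ i := fun i => by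
      induction i with
      | zero => simp
      | succ i ih =>
        rw [pow_succ', Module.End.mul_apply, ih, pow_succ, ← Matrix.mul_assoc]
        rfl
    rw [this, hk, Matrix.mul_zero]
    rfl
  have hab : Commute a b := LinearMap.ext fun M => (Matrix.mul_assoc Nᵀ M N).symm
  obtain ⟨k, hk⟩ : IsNilpotent (a + b + a * b) :=
    ((Commute.refl a).mul_right hab).add_left (hab.symm.mul_right (Commute.refl b))
      |>.isNilpotent_add (hab.isNilpotent_add ha hb) (hab.isNilpotent_mul_right ha)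
  refine ⟨k, LinearMap.ext fun v => alt_inj ?_⟩
  have : ∀ i : ℕ, alt ((toLin' (wedge (1 + N) (1 + N) - 1) ^ i) v) =
      ((a + b + a * b) ^ i) (alt v) := fun i => by
    induction i with
    | zero => simp
    | succ i ih =>
      rw [pow_succ', pow_succ', Module.End.mul_apply, Module.End.mul_apply, ← ih, toLin'_apply,
        sub_mulVec, one_mulVec, map_sub, alt_wedge]
      change _ = Nᵀ * _ + _ * N + Nᵀ * (_ * N)
      simp only [transpose_add, transpose_one, Matrix.add_mul, Matrix.mul_add, Matrix.one_mul,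
        Matrix.mul_one, Matrix.mul_assoc]
      abel
  rw [this, hk]
  simp

theorem data_unip [CharZero L] (hn : 9 ≤ n) {N : Matrix (Fin n) (Fin n) L} (hN : IsNilpotent N)
    (h0 : N ≠ 0) : Data (1 + N) := by
  obtain ⟨u, hu⟩ : ∃ u, u = 1 + N := ⟨_, rfl⟩
  have eig : ∀ (ν : L) (v : Pr n → L), (wedge u u - ν • 1) *ᵥ v = 0 → v ≠ 0 → ν = 1 := by
    intro ν v hv v0
    obtain ⟨k, hk⟩ := wedge_nilpotent hN
    rw [← hu] at hk
    have a1 : toLin' (wedge u u - 1) v = (ν - 1) • v := by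
      rw [sub_mulVec, smul_mulVec, one_mulVec, sub_eq_zero] at hv
      rw [toLin'_apply, sub_mulVec, hv, one_mulVec, sub_smul, one_smul]
    have a2 : ∀ i : ℕ, (toLin' (wedge u u - 1) ^ i) v = (ν - 1) ^ i • v := fun i => by
      induction i with
      | zero => simp
      | succ i ih => rw [pow_succ', Module.End.mul_apply, ih, map_smul, a1, smul_smul, pow_succ]
    have a3 := a2 k
    rw [hk, LinearMap.zero_apply, eq_comm, smul_eq_zero] at a3
    exact sub_eq_zero.1 (eq_zero_of_pow_eq_zero (a3.resolve_right v0))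
  obtain ⟨u', hu'⟩ := (hN.isUnit_one_add).exists_right_inv
  rw [← hu] at hu'
  have hu'' := mul_eq_one_comm.1 hu'
  have two : IsUnit (2 + N) := by
    have : IsNilpotent ((2⁻¹ : L) • N) := hN.smul _
    have e : (2 + N) = (2 : L) • (1 + (2⁻¹ : L) • N) := by
      rw [smul_add, smul_smul, mul_inv_cancel₀ two_ne_zero, one_smul, two_smul, one_add_one_eq_two]
    rw [e, Algebra.smul_def]
    exact ((IsUnit.mk0 _ two_ne_zero).map (algebraMap L _)).mul this.isUnit_one_add
  have cu : Commute N u := hu ▸ (Commute.one_right N).add_right (Commute.refl N)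
  have cu' : Commute N u' := by
    have : N * u' = u' * (u * N) * u' := by rw [← Matrix.mul_assoc, hu'', Matrix.one_mul]
    change N * u' = u' * N
    rw [this, ← cu.eq, Matrix.mul_assoc, Matrix.mul_assoc, hu', Matrix.mul_one]
  have c2 : Commute N (u' * (2 + N)) :=
    cu'.mul_right ((Commute.ofNat_right N 2).add_right (Commute.refl N))
  have hH : u - u' = N * (u' * (2 + N)) := by
    have e1 : u' * N = 1 - u' := by rw [← hu'', hu, Matrix.mul_add, Matrix.mul_one]; abel
    rw [← Matrix.mul_assoc, cu'.eq, e1, Matrix.sub_mul, Matrix.one_mul, Matrix.mul_add, e1, hu,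
      mul_two]
    rw [← one_add_one_eq_two]
    abel
  have hr : ∀ j : ℕ, ((u - u') ^ j).rank = (N ^ j).rank := fun j => by
    rw [hH, c2.mul_pow]
    exact rank_mul_eq_left_of_isUnit_det _ _ ((Matrix.isUnit_iff_isUnit_det _).1
      (((IsUnit.of_mul_eq_one u hu'').mul two).pow j))
  obtain ⟨k, hk⟩ := hN
  have hk2 : N ^ (2 * k) = 0 := by rw [two_mul, pow_add, hk, Matrix.mul_zero]
  obtain ⟨Γ, g1, -, g3⟩ := exists_tangent N (2 * k)
  let dW : Matrix (Fin n) (Fin n) L →ₗ[L] Matrix (Pr n) (Pr n) L :=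
    { toFun := fun Y => wedge Y u + wedge u Y
      map_add' := fun Y Y' => by ext; simp [wedge]; ring
      map_smul' := fun c Y => by ext; simp [wedge]; ring }
  have r0 : (N ^ 0).rank = n := by rw [pow_zero, rank_one, Fintype.card_fin]
  have hpart := part (Finset.range (2 * k)) (fun i => (N ^ i).rank - (N ^ (i + 1)).rank) hn
    (by
      have : ∀ j, ∑ i ∈ Finset.range j, ((N ^ i).rank - (N ^ (i + 1)).rank) + (N ^ j).rank = n := by
        intro j
        induction j with
        | zero => simp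
        | succ j ih =>
          have := (rank_step N j).1
          rw [Finset.sum_range_succ]
          omega
      have := this (2 * k)
      rwa [hk2, Matrix.rank_zero, add_zero] at this) (fun i _ => by
      have a1 : (N ^ (0 + 1)).rank ≠ 0 := fun e => h0 (by
        rw [zero_add, pow_one, ← rk_eq, Submodule.finrank_eq_zero, range_eq_bot] at e
        exact toLin'.map_eq_zero_iff.1 e)
      have a2 : (N ^ i).rank - (N ^ (i + 1)).rank ≤ (N ^ 0).rank - (N ^ (0 + 1)).rank := by
        clear * -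
        induction i with
        | zero => exact le_rfl
        | succ i ih => exact (rank_step N i).2.trans ih
      omega)
  rw [← hu]
  refine ⟨Γ.map dW, _, fun D => ⟨0, ⟨N.map D, g1 D, ?_⟩, fun ν hν => ?_⟩,
    le_trans (Nat.add_le_add_right (Submodule.finrank_map_le _ _) _) g3, fun ν => ?_, hpart⟩
  · have : u.map D = N.map D := by
      rw [hu, Matrix.map_add _ (map_add D), der_one, zero_add]
    rw [map_zero, sub_zero, wedge_der, this]
    rfl
  · obtain ⟨v, v0, hv⟩ := exists_mulVec_eq_zero_iff.2 hν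
    rw [eig ν v hv v0, eval_zero, D.map_one_eq_zero]
  · have a1 := finrank_range_add_finrank_ker (toLin' (wedge u u - ν • 1))
    rw [rk_eq, finrank_fintype_fun_eq_card, card_Pr] at a1
    have a2 := filt_bound (u - u') ((ker (toLin' (wedge u u - ν • 1))).map alt) (by
      rintro _ ⟨v, hv, rfl⟩
      refine ⟨Matrix.ext fun i j => alt_swap v i j, ?_⟩
      by_cases v0 : v = 0
      · simp [v0]
      have b0 : (wedge u u - ν • 1) *ᵥ v = 0 := hv
      have b1 := eig ν v b0 v0
      rw [b1, one_smul, sub_mulVec, one_mulVec, sub_eq_zero] at b0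
      have b2 := alt_wedge u v
      rw [b0] at b2
      have b3 : uᵀ * alt v = alt v * u' := by
        nth_rewrite 2 [b2]
        rw [Matrix.mul_assoc, hu', Matrix.mul_one]
      have b4 : u'ᵀ * alt v = alt v * u := by
        nth_rewrite 1 [b2]
        rw [← Matrix.mul_assoc, ← Matrix.mul_assoc, ← transpose_mul, hu', transpose_one,
          Matrix.one_mul]
      rw [transpose_sub, Matrix.sub_mul, Matrix.mul_sub, b3, b4, neg_sub]) k
    rw [inf_eq_left.2 (fun M _ => by
      change M * (u - u') ^ (2 * k) = 0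
      rw [hH, c2.mul_pow, hk2, Matrix.zero_mul, Matrix.mul_zero]),
      ← (Submodule.equivMapOfInjective _ (fun _ _ => alt_inj) _).finrank_eq] at a2
    simp only [hr] at a2
    omega

end Pool.Agent.Lib.MP_a8bb0e_al.Sharp
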